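import Pool.Agent.Helper51.PP.Main3
import Pool.Agent.Helper25.PC.CFE
import Pool.Agent.Helper25.PC.CH4
import Pool.Agent.Helper10.PC.CH1
import Pool.Agent.Helper10.PC.CH2
import Pool.Agent.Helper83.PC.CH3
import Pool.Agent.Helper83.PC.CH5
import Pool.Agent.Helper18.PC.CH6
import Pool.Agent.Helper18.PC.WEYL
import Pool.Agent.Helper19.PC.CH7
import Pool.Agent.Helper70.PC.CH8
import Pool.Agent.Helper70.PC.ZS
import Pool.Agent.Helper71.PC.CHAR
import Pool.Agent.Helper74.PC.CL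
import Pool.Agent.Helper13.PC.CONG
import Pool.Agent.Helper13.PC.EVF
import Pool.Agent.Helper21.PC.DEN
import Pool.Agent.Helper96.PC.DET
import Pool.Agent.Helper85.PC.DLT
import Pool.Agent.Helper40.PC.ERG
import Pool.Agent.Helper22.PC.GEO1
import Pool.Agent.Helper22.PC.MART
import Pool.Agent.Helper33.PC.GEO2
import Pool.Agent.Helper33.PC.LNK
import Pool.Agent.Helper41.PC.GOOD
import Pool.Agent.Helper41.PC.POS
import Pool.Agent.Helper86.PC.GRL
import Pool.Agent.Helper86.PC.PTW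
import Pool.Agent.Helper67.PC.HBC
import Pool.Agent.Helper67.PC.HOPF
import Pool.Agent.Helper24.PC.HK
import Pool.Agent.Helper87.PC.LEVY
import Pool.Agent.Helper87.PC.COR
import Pool.Agent.Helper73.PC.LIO
import Pool.Agent.Helper73.PC.NL
import Pool.Agent.Helper12.PC.MG
import Pool.Agent.Helper12.PC.MP
import Pool.Agent.Helper99.PC.NASH
import Pool.Agent.Helper6.PC.SB

/-!
# Swarm PC: all parts together
-/

set_option autoImplicit false

namespace Pool.Agent.Helper51.PP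

theorem hCH1 : S_CH1 := Pool.Agent.Helper10.PC.CH1.main
theorem hCH2 : S_CH2 := Pool.Agent.Helper10.PC.CH2.main
theorem hCH3 : S_CH3 := Pool.Agent.Helper83.PC.CH3.main hCH1
theorem hCH4 : S_CH4 := Pool.Agent.Helper25.PC.CH4.main
theorem hCH5 : S_CH5 := Pool.Agent.Helper83.PC.CH5.main hCH1
theorem hCH6 : S_CH6 := Pool.Agent.Helper18.PC.CH6.main hCH1 hCH5
theorem hCH7 : S_CH7 := Pool.Agent.Helper19.PC.CH7.main hCH1
theorem hZS : S_ZS := Pool.Agent.Helper70.PC.ZS.main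
theorem hCH8 : S_CH8 := Pool.Agent.Helper70.PC.CH8.main hCH1 hZS
theorem hGRL : S_GRL := Pool.Agent.Helper86.PC.GRL.main
theorem hPTW : S_PTW := Pool.Agent.Helper86.PC.PTW.main
theorem hCONG : S_CONG := Pool.Agent.Helper13.PC.CONG.main
theorem hCFE : S_CFE := Pool.Agent.Helper25.PC.CFE.main
theorem hEVF : S_EVF := Pool.Agent.Helper13.PC.EVF.main
theorem hNL : S_NL := Pool.Agent.Helper73.PC.NL.main
theorem hCL : S_CL := Pool.Agent.Helper74.PC.CL.main
theorem hGEO1 : S_GEO1 := Pool.Agent.Helper22.PC.GEO1.main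
theorem hGEO2 : S_GEO2 := Pool.Agent.Helper33.PC.GEO2.main
theorem hLNK : S_LNK := Pool.Agent.Helper33.PC.LNK.main hGEO2
theorem hSB : S_SB := Pool.Agent.Helper6.PC.SB.main hGEO1
theorem hNASH : S_NASH := Pool.Agent.Helper99.PC.NASH.main hSB hGEO1
theorem hHK : S_HK := Pool.Agent.Helper24.PC.HK.main hCH1 hCH2 hCH3 hCH4 hNASH hGEO1
theorem hDET : S_DET :=
  Pool.Agent.Helper96.PC.DET.main hCH1 hCH5 hCH6 hCH7 hCH8 hNL hHK hGEO1 hCONG
theorem hCOR : S_COR := Pool.Agent.Helper87.PC.COR.main hCH1 hCH5 hCH6 hCL hGRL hPTW hCONG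
theorem hMART : S_MART := Pool.Agent.Helper22.PC.MART.main hCFE hCONG
theorem hDLT : S_DLT :=
  Pool.Agent.Helper85.PC.DLT.main hCOR hMART hEVF hDET hLNK hGEO1 hCONG
theorem hHOPF : S_HOPF := Pool.Agent.Helper67.PC.HOPF.main
theorem hHBC : S_HBC := Pool.Agent.Helper67.PC.HBC.main hHOPF
theorem hLIO : S_LIO := Pool.Agent.Helper73.PC.LIO.main
theorem hDEN : S_DEN := Pool.Agent.Helper21.PC.DEN.main hLIO
theorem hWEYL : S_WEYL := Pool.Agent.Helper18.PC.WEYL.main
theorem hMG : S_MG := Pool.Agent.Helper12.PC.MG.main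
theorem hPOS : S_POS := Pool.Agent.Helper41.PC.POS.main
theorem hGOOD : S_GOOD := Pool.Agent.Helper41.PC.GOOD.main hPOS
theorem hMP : S_MP := Pool.Agent.Helper12.PC.MP.main hGOOD
theorem hERG : S_ERG := Pool.Agent.Helper40.PC.ERG.main hMP hGOOD
theorem hCHAR : S_CHAR := Pool.Agent.Helper71.PC.CHAR.main
theorem hLEVY : S_LEVY := Pool.Agent.Helper87.PC.LEVY.main hCHAR hLNK hCONG hEVF

end Pool.Agent.Helper51.PP
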