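import Mathlib

/-!
# Random walk on a stationary ergodic point process: definitions (problem MP_b460e8_pr)
-/

set_option autoImplicit false

namespace Pool.Agent.Helper51.PP

open MeasureTheory ProbabilityTheory Filter Topology
open scoped ENNReal BigOperators

/-- Configurations `ω ∈ {0,1}^{ℤ^d}` (`true` = point present), with the product σ-algebra. -/
abbrev Conf (d : ℕ) : Type := (Fin d → ℤ) → Bool

/-- The shift `(θ_x ω)(y) = ω(x+y)`. -/
def shiftConf {d : ℕ} (x : Fin d → ℤ) (ω : Conf d) : Conf d := fun y => ω (x + y)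

/-- The direction `e_i` (for `(i,true)`) or `-e_i` (for `(i,false)`). -/
def dirVec {d : ℕ} (e : Fin d × Bool) : Fin d → ℤ :=
  if e.2 then Pi.single e.1 1 else -Pi.single e.1 1

/-- The opposite direction. -/
def revD {d : ℕ} (e : Fin d × Bool) : Fin d × Bool := (e.1, !e.2)

/-- `gap ω v e = f_e(θ_v ω) = min {k ≥ 1 : ω(v + k e) = 1}`. -/
noncomputable def gap {d : ℕ} (ω : Conf d) (v : Fin d → ℤ) (e : Fin d × Bool) : ℕ :=
  sInf {k : ℕ | 1 ≤ k ∧ ω (v + (k : ℤ) • dirVec e) = true}

/-- The nearest point `v + f_e(θ_v ω) e` in direction `e`. -/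
noncomputable def nextPt {d : ℕ} (ω : Conf d) (v : Fin d → ℤ) (e : Fin d × Bool) : Fin d → ℤ :=
  v + (gap ω v e : ℤ) • dirVec e

/-- The law after `n` steps of the walk on the point process `ω` started at `v`: each step goes to
each of the `2d` coordinate nearest points with probability `1/(2d)`. -/
noncomputable def walkLaw {d : ℕ} [NeZero d] (ω : Conf d) : ℕ → (Fin d → ℤ) → PMF (Fin d → ℤ)
  | 0, v => PMF.pure v
  | n + 1, v => (PMF.uniformOfFintype (Fin d × Bool)).bind fun e => walkLaw ω n (nextPt ω v e)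

/-- The rescaling `x ↦ x/√n` into Euclidean space. -/
noncomputable def rescale (d n : ℕ) (x : Fin d → ℤ) : EuclideanSpace ℝ (Fin d) :=
  (√(n : ℝ))⁻¹ • (WithLp.toLp 2 (fun i => (x i : ℝ)))

/-- The law of `X_n/√n` under `P_ω` (walk started at the origin). -/
noncomputable def scaledLaw {d : ℕ} [NeZero d] (ω : Conf d) (n : ℕ) :
    ProbabilityMeasure (EuclideanSpace ℝ (Fin d)) :=
  ⟨((walkLaw ω n 0).toMeasure).map (rescale d n),
    Measure.isProbabilityMeasure_map (Measurable.of_discrete (f := rescale d n)).aemeasurable⟩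

/-- The configurations with a point at the origin. -/
def Om0 (d : ℕ) : Set (Conf d) := {ω | ω 0 = true}

/-- `Q` is a measure as in the problem: a probability measure on configurations, stationary and
ergodic under each `θ_{e_i}`, with `Q(ω ≡ 0) < 1`. -/
structure IsPointProcess (d : ℕ) (Q : Measure (Conf d)) : Prop where
  prob : IsProbabilityMeasure Q
  ergodic : ∀ i : Fin d, Ergodic (shiftConf (Pi.single i 1 : Fin d → ℤ)) Q
  nontrivial : Q {ω | ∀ x, ω x = false} < 1

/-- The walk satisfies a CLT: there is a deterministic covariance matrix `D` such that for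
`P`-a.e. `ω` (where `P = Q(· | ω(0)=1)`), `X_n/√n` converges in distribution to `N(0,D)`. -/
def SatisfiesCLT (d : ℕ) [NeZero d] (Q : Measure (Conf d)) : Prop :=
  ∃ D : Matrix (Fin d) (Fin d) ℝ, D.PosSemidef ∧
    ∀ᵐ ω ∂(ProbabilityTheory.cond Q (Om0 d)),
      Tendsto (fun n : ℕ => scaledLaw ω n) atTop
        (𝓝 (⟨multivariateGaussian 0 D, inferInstance⟩ :
          ProbabilityMeasure (EuclideanSpace ℝ (Fin d))))

/-! ### Abstract chains with finitely many directions -/
section Chain
variable {X E : Type} [Fintype E]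

/-- the averaging operator `P f (x) = (1/|E|) Σ_e f(nx x e)` -/
noncomputable def PR (nx : X → E → X) (f : X → ℝ) (x : X) : ℝ :=
  (Fintype.card E : ℝ)⁻¹ * ∑ e, f (nx x e)

/-- `PRn nx f n x = (P^n f)(x) = E_x f(X_n)` -/
noncomputable def PRn (nx : X → E → X) (f : X → ℝ) : ℕ → X → ℝ
  | 0 => f
  | n + 1 => PR nx (PRn nx f n)

/-- `SR nx f n x = Σ_{j<n} (P^j f)(x)` -/
noncomputable def SR (nx : X → E → X) (f : X → ℝ) (n : ℕ) (x : X) : ℝ :=
  ∑ j ∈ Finset.range n, PRn nx f j x

/-- `EV nx F n x = E_x F(X_n)` for complex functions -/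
noncomputable def EV (nx : X → E → X) (F : X → ℂ) : ℕ → X → ℂ
  | 0, x => F x
  | n + 1, x => (Fintype.card E : ℂ)⁻¹ * ∑ e, EV nx F n (nx x e)

/-- `CF nx c θ n x = E_x exp(iθ Σ_{j<n} c(X_j,e_j))` -/
noncomputable def CF (nx : X → E → X) (c : X → E → ℝ) (θ : ℝ) : ℕ → X → ℂ
  | 0, _ => 1
  | n + 1, x => (Fintype.card E : ℂ)⁻¹ *
      ∑ e, Complex.exp (Complex.I * ((θ * c x e : ℝ) : ℂ)) * CF nx c θ n (nx x e)

/-- increments of a function along the chain -/
def grad (nx : X → E → X) (φ : X → ℝ) (x : X) (e : E) : ℝ := φ (nx x e) - φ x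

/-- `Vf c x = (1/|E|) Σ_e c(x,e)^2` -/
noncomputable def Vf (c : X → E → ℝ) (x : X) : ℝ := (Fintype.card E : ℝ)⁻¹ * ∑ e, (c x e) ^ 2

open Classical in
/-- `Tf c G x = (1/|E|) Σ_e c(x,e)^2 1(|c(x,e)| > G)` -/
noncomputable def Tf (c : X → E → ℝ) (G : ℝ) (x : X) : ℝ :=
  (Fintype.card E : ℝ)⁻¹ * ∑ e, (if G < |c x e| then (c x e) ^ 2 else 0)

/-- reversible chain: a step in direction `e` is undone by the step in direction `rev e` -/
structure RevChain (nx : X → E → X) (rev : E → E) : Prop where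
  inv : ∀ e, rev (rev e) = e
  back : ∀ x e, nx (nx x e) (rev e) = x

open Classical in
/-- `pk nx x0 n y`: the probability that the chain started at `x0` is at `y` at time `n` (for
reversible chains). -/
noncomputable def pk (nx : X → E → X) (x0 : X) (n : ℕ) : X → ℝ :=
  PRn nx (fun y => if y = x0 then 1 else 0) n

/-- the entropy of the law at time `n` -/
noncomputable def ent (nx : X → E → X) (x0 : X) (n : ℕ) : ℝ := ∑' y, Real.negMulLog (pk nx x0 n y)

/-- `x` can be reached from `x0` -/
inductive Reach (nx : X → E → X) (x0 : X) : X → Prop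
  | refl : Reach nx x0 x0
  | step (x : X) (e : E) : Reach nx x0 x → Reach nx x0 (nx x e)

end Chain

/-! ### Measure preserving reversible systems -/
section MPS
variable {Ω E : Type} [MeasurableSpace Ω] [Fintype E]

/-- the maps `T(·,e)` preserve `μ` and `T(·,rev e)` is the inverse of `T(·,e)` -/
structure MPS (μ : Measure Ω) (T : Ω → E → Ω) (rev : E → E) : Prop where
  mp : ∀ e, MeasurePreserving (fun ω => T ω e) μ μ
  inv : ∀ e, rev (rev e) = e
  back : ∀ e, ∀ᵐ ω ∂μ, T (T ω e) (rev e) = ω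

end MPS

/-! ### The chain of a configuration -/
section Geo
variable {d : ℕ}

/-- every coordinate half line contains a point of the configuration -/
def Good (ω : Conf d) : Prop :=
  ∀ (v : Fin d → ℤ) (e : Fin d × Bool), ∃ k : ℕ, 1 ≤ k ∧ ω (v + (k : ℤ) • dirVec e) = true

/-- the occupied sites -/
abbrev Occ (ω : Conf d) : Type := {v : Fin d → ℤ // ω v = true}

theorem nextPt_occ {ω : Conf d} (hω : Good ω) (v : Fin d → ℤ) (e : Fin d × Bool) :
    ω (nextPt ω v e) = true := by
  have h := hω v e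
  exact (Nat.sInf_mem (s := {k : ℕ | 1 ≤ k ∧ ω (v + (k : ℤ) • dirVec e) = true}) h).2

/-- the chain on the occupied sites -/
noncomputable def nxO (ω : Conf d) (hω : Good ω) (v : Occ ω) (e : Fin d × Bool) : Occ ω :=
  ⟨nextPt ω v.1 e, nextPt_occ hω v.1 e⟩

/-- the environment seen from the point reached by one step from the origin -/
noncomputable def Tm (ω : Conf d) (e : Fin d × Bool) : Conf d :=
  shiftConf ((gap ω 0 e : ℤ) • dirVec e) ω

/-- `ℓ¹` norm of a lattice point -/
def N1 (v : Fin d → ℤ) : ℝ := ∑ i, |(v i : ℝ)|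

end Geo

end Pool.Agent.Helper51.PP
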