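import Pool.Agent.Helper51.PP.All

/-!
# Swarm PC: the final theorem
-/

set_option autoImplicit false

namespace Pool.Agent.Helper51.PP

open MeasureTheory ProbabilityTheory Filter Topology
open scoped ENNReal BigOperators

theorem clt_all {d : ℕ} [NeZero d] (hd : 2 ≤ d) (Q : Measure (Conf d)) (hQ : IsPointProcess d Q)
    (hf : ∀ e : Fin d × Bool,
      ∫⁻ ω, ((gap ω 0 e : ℕ) : ℝ≥0∞) ^ 2 ∂(cond Q (Om0 d)) < ∞) : SatisfiesCLT d Q :=
  clt hd hDLT hDET hHBC hDEN hLNK hWEYL hLEVY hGEO2 hGOOD hMP hERG hPOS hMG Q hQ hf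

theorem final {d : ℕ} [NeZero d] (hd : 2 ≤ d) :
    ∃ D : Measure (Conf d) → Matrix (Fin d) (Fin d) ℝ,
      ∀ Q : Measure (Conf d), IsPointProcess d Q →
        (∀ e : Fin d × Bool,
          ∫⁻ ω, ((gap ω 0 e : ℕ) : ℝ≥0∞) ^ 2 ∂(cond Q (Om0 d)) < ∞) →
        (D (cond Q (Om0 d))).PosSemidef ∧
        ∀ᵐ ω ∂(cond Q (Om0 d)),
          Tendsto (fun n : ℕ => scaledLaw ω n) atTop
            (𝓝 (⟨multivariateGaussian 0 (D (cond Q (Om0 d))), inferInstance⟩ :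
              ProbabilityMeasure (EuclideanSpace ℝ (Fin d)))) := by
  classical
  refine ⟨fun P => if h : ∃ D : Matrix (Fin d) (Fin d) ℝ, D.PosSemidef ∧
    ∀ᵐ ω ∂P, Tendsto (fun n : ℕ => scaledLaw ω n) atTop
      (𝓝 (⟨multivariateGaussian 0 D, inferInstance⟩ :
        ProbabilityMeasure (EuclideanSpace ℝ (Fin d)))) then h.choose else 0, ?_⟩
  intro Q hQ hf
  have h := clt_all hd Q hQ hf
  unfold SatisfiesCLT at h
  simp only [dif_pos h]
  exact h.choose_spec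

end Pool.Agent.Helper51.PP
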