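import Pool.Agent.Helper51.PP.Spec

/-!
# Swarm PC: assembly
-/

set_option autoImplicit false

namespace Pool.Agent.Helper51.PP

open MeasureTheory ProbabilityTheory Filter Topology
open scoped ENNReal BigOperators

section Basic
variable {d : ℕ}

theorem measurableSet_Om0 (d : ℕ) : MeasurableSet (Om0 d) := by
  have : Om0 d = (fun ω : Conf d => ω 0) ⁻¹' {true} := by ext ω; simp [Om0]
  rw [this]
  exact (measurable_pi_apply (0 : Fin d → ℤ)) (MeasurableSet.singleton true)

theorem dirVec_revD (e : Fin d × Bool) : dirVec (revD e) = -dirVec e := by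
  obtain ⟨i, b⟩ := e
  cases b <;> simp [dirVec, revD]

theorem shiftConf_zero (ω : Conf d) : shiftConf 0 ω = ω := by
  funext y; simp [shiftConf]

theorem SR_bridge (hL : S_LNK) (ω : Conf d) (hω : Good ω) (h0 : ω 0 = true) (g : Conf d → ℝ)
    (n : ℕ) : SR Tm g n ω = SR (nxO ω hω) (fun v => g (shiftConf v.1 ω)) n ⟨0, h0⟩ := by
  unfold SR
  refine Finset.sum_congr rfl fun j _ => ?_
  have h := (hL d ω hω j ⟨0, h0⟩).1 g
  rwa [shiftConf_zero] at h

theorem PR_bridge (hG : S_GEO2) (ω : Conf d) (hω : Good ω) (g : Conf d → ℝ) (v : Occ ω) :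
    PR (nxO ω hω) (fun v => g (shiftConf v.1 ω)) v = PR Tm g (shiftConf v.1 ω) := by
  unfold PR
  congr 1
  refine Finset.sum_congr rfl fun e _ => ?_
  rw [(hG d ω hω).2.2.1 v.1 e]
  rfl

theorem mps (hGd : S_GOOD) (hG2 : S_GEO2) (hMP : S_MP) (Q : Measure (Conf d))
    (hQ : IsPointProcess d Q) : MPS (cond Q (Om0 d)) Tm revD where
  mp := hMP d Q hQ
  inv := fun e => by simp [revD]
  back := fun e => by
    haveI := hQ.prob
    have h1 : ∀ᵐ ω ∂(cond Q (Om0 d)), Good ω := cond_absolutelyContinuous.ae_le (hGd d Q hQ)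
    have h2 : ∀ᵐ ω ∂(cond Q (Om0 d)), ω ∈ Om0 d := ae_cond_mem (measurableSet_Om0 d)
    filter_upwards [h1, h2] with ω a b
    exact ((hG2 d ω a).2.2.2.2 b e).1

end Basic

section Tail
variable {Ω E : Type} [MeasurableSpace Ω] [Fintype E] [Nonempty E]

theorem measurable_Vf (c : Ω → E → ℝ) (hc : ∀ e, Measurable (fun ω => c ω e)) :
    Measurable (Vf c) := by
  unfold Vf
  exact (Finset.measurable_sum _ fun e _ => (hc e).pow_const 2).const_mul _

theorem integrable_Vf (μ : Measure Ω) (c : Ω → E → ℝ)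
    (hc : ∀ e, MemLp (fun ω => c ω e) 2 μ) : Integrable (Vf c) μ := by
  unfold Vf
  exact (integrable_finset_sum _ fun e _ => (hc e).integrable_sq).const_mul _

theorem Vf_nonneg (c : Ω → E → ℝ) (ω : Ω) : 0 ≤ Vf c ω := by
  unfold Vf
  positivity

theorem Tf_nonneg (c : Ω → E → ℝ) (G : ℝ) (ω : Ω) : 0 ≤ Tf c G ω := by
  unfold Tf
  refine mul_nonneg (by positivity) (Finset.sum_nonneg fun e _ => ?_)
  split_ifs <;> positivity

theorem Tf_le_Vf (c : Ω → E → ℝ) (G : ℝ) (ω : Ω) : Tf c G ω ≤ Vf c ω := by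
  unfold Tf Vf
  refine mul_le_mul_of_nonneg_left (Finset.sum_le_sum fun e _ => ?_) (by positivity)
  split_ifs
  · exact le_rfl
  · positivity

theorem measurable_Tf (c : Ω → E → ℝ) (hc : ∀ e, Measurable (fun ω => c ω e)) (G : ℝ) :
    Measurable (Tf c G) := by
  unfold Tf
  refine (Finset.measurable_sum _ fun e _ => ?_).const_mul _
  exact Measurable.ite (measurableSet_lt measurable_const ((hc e).norm)) ((hc e).pow_const 2)
    measurable_const

theorem exists_tail (μ : Measure Ω) (c : Ω → E → ℝ)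
    (hm : ∀ e, Measurable (fun ω => c ω e))
    (hc : ∀ e, MemLp (fun ω => c ω e) 2 μ) (ε : ℝ) (hε : 0 < ε) :
    ∃ G : ℝ, 0 ≤ G ∧ ∫ ω, Tf c G ω ∂μ ≤ ε := by
  have h : Tendsto (fun n : ℕ => ∫ ω, Tf c (n : ℝ) ω ∂μ) atTop (𝓝 (∫ _ω, (0 : ℝ) ∂μ)) := by
    refine tendsto_integral_of_dominated_convergence (Vf c)
      (fun n => (measurable_Tf c hm n).aestronglyMeasurable) (integrable_Vf μ c hc) ?_ ?_
    · intro n
      refine Eventually.of_forall fun ω => ?_
      rw [Real.norm_eq_abs, abs_of_nonneg (Tf_nonneg c _ ω)]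
      exact Tf_le_Vf c _ ω
    · refine Eventually.of_forall fun ω => ?_
      obtain ⟨N, hN⟩ := exists_nat_ge (∑ e, |c ω e|)
      refine tendsto_const_nhds.congr' ?_
      filter_upwards [eventually_ge_atTop N] with n hn
      unfold Tf
      symm
      rw [Finset.sum_eq_zero, mul_zero]
      intro e _
      rw [if_neg]
      rw [not_lt]
      calc |c ω e| ≤ ∑ e, |c ω e| :=
            Finset.single_le_sum (f := fun e => |c ω e|) (fun e _ => abs_nonneg _)
              (Finset.mem_univ e)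
        _ ≤ N := hN
        _ ≤ n := by exact_mod_cast hn
  rw [integral_zero] at h
  obtain ⟨n, hn⟩ := (h.eventually (ge_mem_nhds hε)).exists
  exact ⟨n, Nat.cast_nonneg n, hn⟩

end Tail

section PRm
variable {Ω E : Type} [MeasurableSpace Ω] [Fintype E] [Nonempty E]

theorem measurable_PR {μ : Measure Ω} {T : Ω → E → Ω} {rev : E → E} (hT : MPS μ T rev)
    {h : Ω → ℝ} (hh : Measurable h) : Measurable (PR T h) := by
  unfold PR
  exact (Finset.measurable_sum _ fun e _ => hh.comp (hT.mp e).measurable).const_mul _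

theorem PR_bdd {T : Ω → E → Ω} {h : Ω → ℝ} {H : ℝ} (hh : ∀ ω, |h ω| ≤ H) (ω : Ω) :
    |PR T h ω| ≤ H := by
  unfold PR
  have hc : (0 : ℝ) < Fintype.card E := by exact_mod_cast Fintype.card_pos
  rw [abs_mul, abs_of_pos (inv_pos.mpr hc), inv_mul_le_iff₀ hc]
  calc |∑ e, h (T ω e)| ≤ ∑ e, |h (T ω e)| := Finset.abs_sum_le_sum_abs _ _
    _ ≤ ∑ _e : E, H := Finset.sum_le_sum fun e _ => hh _
    _ = Fintype.card E * H := by rw [Finset.sum_const, Finset.card_univ, nsmul_eq_mul]

end PRm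

end Pool.Agent.Helper51.PP
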