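import Pool.Agent.Helper51.PP.Main

/-!
# Swarm PC: assembly, the statement for one direction
-/

set_option autoImplicit false
set_option linter.unusedSectionVars false

namespace Pool.Agent.Helper51.PP

open MeasureTheory ProbabilityTheory Filter Topology
open scoped ENNReal BigOperators

section Weyl
variable {Ω E : Type} [MeasurableSpace Ω] [Fintype E] [Nonempty E]

theorem grad_memLp {μ : Measure Ω} [IsProbabilityMeasure μ] {T : Ω → E → Ω} {rev : E → E}
    (hT : MPS μ T rev) {ψ : Ω → ℝ} (hψ : Measurable ψ) {B : ℝ} (hB : ∀ ω, |ψ ω| ≤ B) (e : E) :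
    MemLp (fun ω => grad T ψ ω e) 2 μ := by
  refine MemLp.of_bound (((hψ.comp (hT.mp e).measurable).sub hψ).aestronglyMeasurable) (B + B)
    (Eventually.of_forall fun ω => ?_)
  show ‖grad T ψ ω e‖ ≤ B + B
  rw [Real.norm_eq_abs]
  calc |ψ (T ω e) - ψ ω| ≤ |ψ (T ω e)| + |ψ ω| := abs_sub _ _
    _ ≤ B + B := add_le_add (hB _) (hB _)

theorem weyl_comb {ι : Type} [Fintype ι] (μ : Measure Ω) [IsProbabilityMeasure μ]
    (T : Ω → E → Ω) (rev : E → E) (hT : MPS μ T rev) (c m : ι → Ω → E → ℝ)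
    (hc : ∀ i e, MemLp (fun ω => c i ω e) 2 μ) (hm : ∀ i e, MemLp (fun ω => m i ω e) 2 μ)
    (hψ : ∀ i, ∀ ε : ℝ, 0 < ε → ∃ ψ : Ω → ℝ, Measurable ψ ∧ (∃ B : ℝ, ∀ ω, |ψ ω| ≤ B) ∧
      ∫ ω, Vf (fun ω e => c i ω e - m i ω e - grad T ψ ω e) ω ∂μ ≤ ε) (a : ι → ℝ)
    (ε : ℝ) (hε : 0 < ε) :
    ∃ ψ : Ω → ℝ, Measurable ψ ∧ (∃ B : ℝ, ∀ ω, |ψ ω| ≤ B) ∧
      ∫ ω, Vf (fun ω e => (∑ i, a i * c i ω e) - (∑ i, a i * m i ω e) - grad T ψ ω e) ω ∂μ
        ≤ ε := by
  set A : ℝ := ∑ i, (a i) ^ 2 with hA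
  have hA0 : 0 ≤ A := Finset.sum_nonneg fun i _ => sq_nonneg _
  set N : ℝ := (Fintype.card ι : ℝ) with hN
  have hN0 : 0 ≤ N := Nat.cast_nonneg _
  have hden : 0 < (A + 1) * (N + 1) := by positivity
  choose ψ h1 h2 h3 using fun i => hψ i (ε / ((A + 1) * (N + 1))) (by positivity)
  choose B hB using h2
  have hint : ∀ i, Integrable (Vf (fun ω e => c i ω e - m i ω e - grad T (ψ i) ω e)) μ := by
    intro i
    exact integrable_Vf μ _ fun e => ((hc i e).sub (hm i e)).sub (grad_memLp hT (h1 i) (hB i) e)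
  refine ⟨fun ω => ∑ i, a i * ψ i ω, Finset.measurable_sum _ fun i _ => (h1 i).const_mul _,
    ⟨∑ i, |a i| * B i, fun ω => ?_⟩, ?_⟩
  · calc |∑ i, a i * ψ i ω| ≤ ∑ i, |a i * ψ i ω| := Finset.abs_sum_le_sum_abs _ _
      _ ≤ ∑ i, |a i| * B i := Finset.sum_le_sum fun i _ => by
          rw [abs_mul]; exact mul_le_mul_of_nonneg_left (hB i ω) (abs_nonneg _)
  · have key : ∀ ω, Vf (fun ω e => (∑ i, a i * c i ω e) - (∑ i, a i * m i ω e) -
        grad T (fun ω => ∑ i, a i * ψ i ω) ω e) ω ≤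
        A * ∑ i, Vf (fun ω e => c i ω e - m i ω e - grad T (ψ i) ω e) ω := by
      intro ω
      have e2 : A * ∑ i, Vf (fun ω e => c i ω e - m i ω e - grad T (ψ i) ω e) ω =
          (Fintype.card E : ℝ)⁻¹ * ∑ e, (A * ∑ i, (c i ω e - m i ω e - grad T (ψ i) ω e) ^ 2) := by
        unfold Vf
        simp only [Finset.mul_sum]
        rw [Finset.sum_comm]
        refine Finset.sum_congr rfl fun e _ => Finset.sum_congr rfl fun i _ => ?_
        ring
      rw [e2]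
      unfold Vf
      refine mul_le_mul_of_nonneg_left (Finset.sum_le_sum fun e _ => ?_) (by positivity)
      have e1 : (∑ i, a i * c i ω e) - (∑ i, a i * m i ω e) -
          grad T (fun ω => ∑ i, a i * ψ i ω) ω e =
          ∑ i, a i * (c i ω e - m i ω e - grad T (ψ i) ω e) := by
        unfold grad
        simp only [← Finset.sum_sub_distrib]
        refine Finset.sum_congr rfl fun i _ => ?_
        ring
      beta_reduce
      rw [e1]
      exact Finset.sum_mul_sq_le_sq_mul_sq _ _ _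
    calc ∫ ω, Vf (fun ω e => (∑ i, a i * c i ω e) - (∑ i, a i * m i ω e) -
        grad T (fun ω => ∑ i, a i * ψ i ω) ω e) ω ∂μ
        ≤ ∫ ω, A * ∑ i, Vf (fun ω e => c i ω e - m i ω e - grad T (ψ i) ω e) ω ∂μ :=
          integral_mono_of_nonneg (Eventually.of_forall fun ω => Vf_nonneg _ _)
            ((integrable_finset_sum _ fun i _ => hint i).const_mul A)
            (Eventually.of_forall key)
      _ = A * ∑ i, ∫ ω, Vf (fun ω e => c i ω e - m i ω e - grad T (ψ i) ω e) ω ∂μ := by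
          rw [integral_const_mul, integral_finset_sum _ fun i _ => hint i]
      _ ≤ A * ∑ _i : ι, ε / ((A + 1) * (N + 1)) :=
          mul_le_mul_of_nonneg_left (Finset.sum_le_sum fun i _ => h3 i) hA0
      _ = A * N * ε / ((A + 1) * (N + 1)) := by
          rw [Finset.sum_const, Finset.card_univ, nsmul_eq_mul]; ring
      _ ≤ ε := by
          rw [div_le_iff₀ hden]
          have : A * N ≤ (A + 1) * (N + 1) := by nlinarith
          nlinarith

end Weyl

section Dir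
variable {d : ℕ} [NeZero d]

/-- the characteristic functions converge in one direction, for almost every configuration -/
theorem dir (hd : 2 ≤ d) (hDLT : S_DLT) (hHBC : S_HBC) (hDEN : S_DEN) (hLNK : S_LNK)
    (hG2 : S_GEO2) (hGd : S_GOOD) (hMP : S_MP) (hERG : S_ERG) (hPOS : S_POS) (hMG : S_MG)
    (Q : Measure (Conf d)) (hQ : IsPointProcess d Q)
    (hgap : ∀ e : Fin d × Bool, MemLp (fun ω : Conf d => ((gap ω 0 e : ℕ) : ℝ)) 2
      (cond Q (Om0 d)))
    (a : Fin d → ℝ) (m : Conf d → Fin d × Bool → ℝ)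
    (hm : ∀ e, Measurable (fun ω => m ω e))
    (hm2 : ∀ e, MemLp (fun ω => m ω e) 2 (cond Q (Om0 d)))
    (hsum : ∀ ω, ∑ e, m ω e = 0)
    (hψ : ∀ ε : ℝ, 0 < ε → ∃ ψ : Conf d → ℝ, Measurable ψ ∧ (∃ B : ℝ, ∀ ω, |ψ ω| ≤ B) ∧
      ∫ ω, Vf (fun ω e => (∑ i, a i * (dirVec e i : ℝ)) * (gap ω 0 e : ℝ) - m ω e -
        grad Tm ψ ω e) ω ∂(cond Q (Om0 d)) ≤ ε) :
    ∀ᵐ ω ∂(cond Q (Om0 d)), Tendsto (fun n : ℕ => EV (nextPt ω) (fun v => Complex.exp
      (Complex.I * (((√(n : ℝ))⁻¹ * ∑ i, a i * (v i : ℝ) : ℝ) : ℂ))) n 0) atTop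
      (𝓝 ((Real.exp (-((∫ ω, Vf m ω ∂(cond Q (Om0 d))) / 2)) : ℝ) : ℂ)) := by
  have := hQ.prob
  have : IsProbabilityMeasure (cond Q (Om0 d)) := cond_isProbabilityMeasure (hPOS d Q hQ)
  have hT : MPS (cond Q (Om0 d)) Tm revD := mps hGd hG2 hMP Q hQ
  have hne : Nonempty (Fin d) := ⟨⟨0, Nat.pos_of_ne_zero (NeZero.ne d)⟩⟩
  have hErg : ∃ e : Fin d × Bool, Ergodic (fun ω : Conf d => Tm ω e) (cond Q (Om0 d)) :=
    ⟨(⟨0, Nat.pos_of_ne_zero (NeZero.ne d)⟩, true), hERG d Q hQ _⟩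
  set P := cond Q (Om0 d) with hP
  -- choices
  have pos4 : ∀ k : ℕ, (0 : ℝ) < (1 / 4) ^ k := fun k => by positivity
  choose h hh1 hh2 hh3 using fun k : ℕ => hDEN P Tm revD hT hErg (Vf m) (measurable_Vf m hm)
    (integrable_Vf P m hm2) ((1 / 4) ^ k) (pos4 k)
  choose H hH using hh2
  choose G hG1 hG2' using fun k : ℕ => exists_tail P m hm hm2 ((1 / 4) ^ k) (pos4 k)
  choose ψ hψ1 hψ2 hψ3 using fun k : ℕ => hψ ((1 / 4) ^ k) (pos4 k)
  choose B hB using hψ2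
  have hgm : ∀ e : Fin d × Bool, Measurable (fun ω : Conf d => ((gap ω 0 e : ℕ) : ℝ)) :=
    fun e => measurable_from_top.comp (hMG d e).1
  obtain ⟨b1, b2⟩ := hHBC P Tm revD hT
  -- the four families
  have k1 := b1 (Vf (fun (ω : Conf d) e => ((gap ω 0 e : ℕ) : ℝ)))
    (measurable_Vf _ hgm) (integrable_Vf P _ hgap) (Vf_nonneg _)
  have k2 := b1 (Vf m) (measurable_Vf m hm) (integrable_Vf P m hm2) (Vf_nonneg m)
  have hPRint : ∀ k, Integrable (PR Tm (h k)) P := fun k =>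
    Integrable.of_bound (measurable_PR hT (hh1 k)).aestronglyMeasurable (H k)
      (Eventually.of_forall fun ω => PR_bdd (hH k) ω)
  have hhint : ∀ k, Integrable (h k) P := fun k =>
    Integrable.of_bound (hh1 k).aestronglyMeasurable (H k) (Eventually.of_forall fun ω => hH k ω)
  have k3 := b2 (fun k ω => |Vf m ω - (∫ ω', Vf m ω' ∂P) - (h k ω - PR Tm (h k) ω)|)
    (fun k => (((measurable_Vf m hm).sub measurable_const).sub
      ((hh1 k).sub (measurable_PR hT (hh1 k)))).norm)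
    (fun k => (((integrable_Vf P m hm2).sub (integrable_const _)).sub
      ((hhint k).sub (hPRint k))).norm) (fun k ω => abs_nonneg _) hh3
  have k4 := b2 (fun k => Tf m (G k)) (fun k => measurable_Tf m hm (G k))
    (fun k => Integrable.mono' (integrable_Vf P m hm2)
      (measurable_Tf m hm (G k)).aestronglyMeasurable (Eventually.of_forall fun ω => by
        rw [Real.norm_eq_abs, abs_of_nonneg (Tf_nonneg m _ ω)]; exact Tf_le_Vf m _ ω))
    (fun k ω => Tf_nonneg m _ ω) hG2'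
  have hηm : ∀ k (e : Fin d × Bool), Measurable (fun ω : Conf d =>
      (∑ i, a i * (dirVec e i : ℝ)) * (gap ω 0 e : ℝ) - m ω e - grad Tm (ψ k) ω e) := fun k e =>
    (((hgm e).const_mul _).sub (hm e)).sub (((hψ1 k).comp (hMG d e).2).sub (hψ1 k))
  have hη2 : ∀ k (e : Fin d × Bool), MemLp (fun ω : Conf d =>
      (∑ i, a i * (dirVec e i : ℝ)) * (gap ω 0 e : ℝ) - m ω e - grad Tm (ψ k) ω e) 2 P :=
    fun k e => (((hgap e).const_mul _).sub (hm2 e)).sub (grad_memLp hT (hψ1 k) (hB k) e)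
  have k5 := b2 (fun k => Vf (fun (ω : Conf d) e =>
      (∑ i, a i * (dirVec e i : ℝ)) * (gap ω 0 e : ℝ) - m ω e - grad Tm (ψ k) ω e))
    (fun k => measurable_Vf _ (hηm k)) (fun k => integrable_Vf P _ (hη2 k))
    (fun k ω => Vf_nonneg _ ω) hψ3
  have g1 : ∀ᵐ ω ∂P, Good ω := cond_absolutelyContinuous.ae_le (hGd d Q hQ)
  have g2' : ∀ᵐ ω ∂P, ω ∈ Om0 d := ae_cond_mem (measurableSet_Om0 d)
  filter_upwards [k1, k2, k3, k4, k5, g1, g2'] with ω w1 w2 w3 w4 w5 hω h0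
  obtain ⟨K1, hK10, hK1⟩ := w1
  obtain ⟨K2, hK20, hK2⟩ := w2
  have h0' : ω 0 = true := h0
  have geo := hG2 d ω hω
  refine hDLT d hd ω hω h0' (max K1 K2) ?_ a (fun v e => m (shiftConf v.1 ω) e)
    (fun x => hsum _) (∫ ω, Vf m ω ∂P) (integral_nonneg fun ω => Vf_nonneg m ω) ?_
    (fun k v => h k (shiftConf v.1 ω)) (fun k v => ψ k (shiftConf v.1 ω)) H G B
    (fun k v => hH k _) hG1 (fun k v => hB k _) ?_ ?_ ?_
  · intro n
    have e1 := SR_bridge hLNK ω hω h0' (Vf (fun (ω : Conf d) e => ((gap ω 0 e : ℕ) : ℝ))) n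
    have e2 : (fun v : Occ ω => Vf (fun (ω : Conf d) e => ((gap ω 0 e : ℕ) : ℝ))
        (shiftConf v.1 ω)) = fun v => g2 ω v.1 := by
      funext v
      unfold Vf g2
      simp only [geo.2.1 v.1]
    rw [e2] at e1
    rw [← e1]
    exact (hK1 n).trans (mul_le_mul_of_nonneg_right (le_max_left _ _) (Nat.cast_nonneg _))
  · intro n
    have e1 := SR_bridge hLNK ω hω h0' (Vf m) n
    exact (e1.symm.trans_le (hK2 n)).trans
      (mul_le_mul_of_nonneg_right (le_max_right _ _) (Nat.cast_nonneg _))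
  · filter_upwards [w3] with k hk n
    have e1 := SR_bridge hLNK ω hω h0'
      (fun ω => |Vf m ω - (∫ ω', Vf m ω' ∂P) - (h k ω - PR Tm (h k) ω)|) n
    have e2 : (fun v : Occ ω => |Vf m (shiftConf v.1 ω) - (∫ ω', Vf m ω' ∂P) -
        (h k (shiftConf v.1 ω) - PR Tm (h k) (shiftConf v.1 ω))|) =
        fun v : Occ ω => |Vf (fun v : Occ ω => fun e => m (shiftConf v.1 ω) e) v -
          (∫ ω', Vf m ω' ∂P) - (h k (shiftConf v.1 ω) -
          PR (nxO ω hω) (fun v : Occ ω => h k (shiftConf v.1 ω)) v)| := by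
      funext v
      rw [PR_bridge hG2 ω hω (h k) v]
      rfl
    exact ((congrArg (fun F => SR (nxO ω hω) F n ⟨0, h0'⟩) e2).symm.trans e1.symm).trans_le
      (hk n)
  · filter_upwards [w4] with k hk n
    have e1 := SR_bridge hLNK ω hω h0' (Tf m (G k)) n
    exact e1.symm.trans_le (hk n)
  · filter_upwards [w5] with k hk n
    have e1 := SR_bridge hLNK ω hω h0' (Vf (fun (ω : Conf d) e =>
      (∑ i, a i * (dirVec e i : ℝ)) * (gap ω 0 e : ℝ) - m ω e - grad Tm (ψ k) ω e)) n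
    have e2 : (fun v : Occ ω => Vf (fun (ω : Conf d) e =>
        (∑ i, a i * (dirVec e i : ℝ)) * (gap ω 0 e : ℝ) - m ω e - grad Tm (ψ k) ω e)
        (shiftConf v.1 ω)) = Vf (fun (x : Occ ω) e =>
        ((∑ i, a i * (dirVec e i : ℝ)) * (gap ω x.1 e : ℝ) - m (shiftConf x.1 ω) e) -
          grad (nxO ω hω) (fun v : Occ ω => ψ k (shiftConf v.1 ω)) x e) := by
      funext v
      unfold Vf grad
      simp only [geo.2.1 v.1, geo.2.2.1 v.1]
      rfl
    rw [e2] at e1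
    rw [← e1]
    exact hk n

end Dir

end Pool.Agent.Helper51.PP
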