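import Pool.Agent.Helper51.PP.Main2

/-!
# Swarm PC: assembly, the central limit theorem
-/

set_option autoImplicit false
set_option linter.unusedSectionVars false

namespace Pool.Agent.Helper51.PP

open MeasureTheory ProbabilityTheory Filter Topology
open scoped ENNReal BigOperators

section Cov
variable {Ω E : Type} [MeasurableSpace Ω] [Fintype E] [Nonempty E] {d : ℕ}

/-- the covariance matrix of the martingale increments -/
noncomputable def covM (μ : Measure Ω) (m : Fin d → Ω → E → ℝ) : Matrix (Fin d) (Fin d) ℝ :=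
  fun i j => ∫ ω, (Fintype.card E : ℝ)⁻¹ * ∑ e, m i ω e * m j ω e ∂μ

theorem integral_Vf_comb (μ : Measure Ω) (m : Fin d → Ω → E → ℝ)
    (hm : ∀ i e, MemLp (fun ω => m i ω e) 2 μ) (a : Fin d → ℝ) :
    ∫ ω, Vf (fun ω e => ∑ i, a i * m i ω e) ω ∂μ = ∑ i, ∑ j, a i * covM μ m i j * a j := by
  have hint : ∀ i j, Integrable (fun ω => (Fintype.card E : ℝ)⁻¹ * ∑ e, m i ω e * m j ω e) μ :=
    fun i j => (integrable_finsetSum _ fun e _ => (hm i e).integrable_mul (hm j e)).const_mul _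
  have e1 : ∀ ω, Vf (fun ω e => ∑ i, a i * m i ω e) ω =
      ∑ i, ∑ j, a i * a j * ((Fintype.card E : ℝ)⁻¹ * ∑ e, m i ω e * m j ω e) := by
    intro ω
    unfold Vf
    have : ∀ e : E, (∑ i, a i * m i ω e) ^ 2 = ∑ i, ∑ j, a i * a j * (m i ω e * m j ω e) := by
      intro e
      rw [sq, Finset.sum_mul_sum]
      refine Finset.sum_congr rfl fun i _ => Finset.sum_congr rfl fun j _ => ?_
      ring
    simp only [this]
    rw [Finset.sum_comm]
    simp only [Finset.mul_sum]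
    refine Finset.sum_congr rfl fun i _ => ?_
    rw [Finset.sum_comm]
    refine Finset.sum_congr rfl fun j _ => Finset.sum_congr rfl fun e _ => ?_
    ring
  simp only [e1]
  rw [integral_finsetSum _ fun i _ => integrable_finsetSum _ fun j _ => (hint i j).const_mul _]
  refine Finset.sum_congr rfl fun i _ => ?_
  rw [integral_finsetSum _ fun j _ => (hint i j).const_mul _]
  refine Finset.sum_congr rfl fun j _ => ?_
  rw [integral_const_mul]
  unfold covM
  ring

theorem covM_posSemidef (μ : Measure Ω) (m : Fin d → Ω → E → ℝ)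
    (hm : ∀ i e, MemLp (fun ω => m i ω e) 2 μ) : (covM μ m).PosSemidef := by
  rw [Matrix.posSemidef_iff_dotProduct_mulVec]
  refine ⟨?_, fun x => ?_⟩
  · ext i j
    simp only [Matrix.conjTranspose_apply, star_trivial, covM]
    congr 1
    funext ω
    congr 1
    exact Finset.sum_congr rfl fun e _ => mul_comm _ _
  · have h := integral_Vf_comb μ m hm x
    have h2 : star x ⬝ᵥ (covM μ m).mulVec x = ∑ i, ∑ j, x i * covM μ m i j * x j := by
      simp only [dotProduct, Matrix.mulVec, Pi.star_apply, star_trivial, Finset.mul_sum]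
      refine Finset.sum_congr rfl fun i _ => Finset.sum_congr rfl fun j _ => ?_
      ring
    rw [h2, ← h]
    exact integral_nonneg fun ω => Vf_nonneg _ _

end Cov

section Final
variable {d : ℕ} [NeZero d]

theorem clt (hd : 2 ≤ d) (hDLT : S_DLT) (hDET : S_DET) (hHBC : S_HBC) (hDEN : S_DEN)
    (hLNK : S_LNK) (hWEYL : S_WEYL) (hLEVY : S_LEVY)
    (hG2 : S_GEO2) (hGd : S_GOOD) (hMP : S_MP) (hERG : S_ERG) (hPOS : S_POS) (hMG : S_MG)
    (Q : Measure (Conf d)) (hQ : IsPointProcess d Q)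
    (hf : ∀ e : Fin d × Bool,
      ∫⁻ ω, ((gap ω 0 e : ℕ) : ℝ≥0∞) ^ 2 ∂(cond Q (Om0 d)) < ∞) :
    SatisfiesCLT d Q := by
  have := hQ.prob
  have : IsProbabilityMeasure (cond Q (Om0 d)) := cond_isProbabilityMeasure (hPOS d Q hQ)
  have hT : MPS (cond Q (Om0 d)) Tm revD := mps hGd hG2 hMP Q hQ
  have hne : Nonempty (Fin d) := ⟨⟨0, Nat.pos_of_ne_zero (NeZero.ne d)⟩⟩
  set P := cond Q (Om0 d) with hP
  have hgm : ∀ e : Fin d × Bool, Measurable (fun ω : Conf d => ((gap ω 0 e : ℕ) : ℝ)) :=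
    fun e => measurable_from_top.comp (hMG d e).1
  have hgap : ∀ e : Fin d × Bool, MemLp (fun ω : Conf d => ((gap ω 0 e : ℕ) : ℝ)) 2 P := by
    intro e
    rw [memLp_two_iff_integrable_sq (hgm e).aestronglyMeasurable]
    refine ⟨((hgm e).pow_const 2).aestronglyMeasurable, ?_⟩
    unfold HasFiniteIntegral
    refine lt_of_eq_of_lt (lintegral_congr fun ω => ?_) (hf e)
    rw [Real.enorm_eq_ofReal (by positivity), ENNReal.ofReal_pow (by positivity),
      ENNReal.ofReal_natCast]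
  have g1 : ∀ᵐ ω ∂P, Good ω := cond_absolutelyContinuous.ae_le (hGd d Q hQ)
  have g2' : ∀ᵐ ω ∂P, ω ∈ Om0 d := ae_cond_mem (measurableSet_Om0 d)
  -- correctors for the coordinate directions
  have hW : ∀ i : Fin d, ∃ m : Conf d → Fin d × Bool → ℝ, (∀ e, Measurable (fun ω => m ω e)) ∧
      (∀ e, MemLp (fun ω => m ω e) 2 P) ∧ (∀ ω, ∑ e, m ω e = 0) ∧
      ∀ ε : ℝ, 0 < ε → ∃ ψ : Conf d → ℝ, Measurable ψ ∧ (∃ B : ℝ, ∀ ω, |ψ ω| ≤ B) ∧
        ∫ ω, Vf (fun ω e => (dirVec e i : ℝ) * (gap ω 0 e : ℝ) - m ω e - grad Tm ψ ω e) ω ∂P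
          ≤ ε := by
    intro i
    refine hWEYL P Tm revD hT (fun ω e => (dirVec e i : ℝ) * (gap ω 0 e : ℝ))
      (fun e => (hgm e).const_mul _) (fun e => (hgap e).const_mul _) (fun e => ?_)
    filter_upwards [g1, g2'] with ω hω h0
    rw [((hG2 d ω hω).2.2.2.2 h0 e).2, dirVec_revD]
    push_cast [Pi.neg_apply]
    ring
  choose m hm1 hm2 hm3 hm4 using hW
  have hsq : ∀ i (e : Fin d × Bool), MemLp (fun ω : Conf d =>
      (dirVec e i : ℝ) * (gap ω 0 e : ℝ)) 2 P := fun i e => (hgap e).const_mul _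
  refine ⟨covM P m, covM_posSemidef P m hm2, ?_⟩
  have hdir : ∀ᵐ ω ∂P, ∀ a : Fin d → ℚ, Tendsto (fun n : ℕ => EV (nextPt ω)
      (fun v => Complex.exp (Complex.I *
        (((√(n : ℝ))⁻¹ * ∑ i, (a i : ℝ) * (v i : ℝ) : ℝ) : ℂ))) n 0) atTop
      (𝓝 ((Real.exp (-((∑ i, ∑ j, (a i : ℝ) * covM P m i j * (a j : ℝ)) / 2)) : ℝ) : ℂ)) := by
    rw [ae_all_iff]
    intro a
    have h := dir hd hDLT hHBC hDEN hLNK hG2 hGd hMP hERG hPOS hMG Q hQ hgap
      (fun i => (a i : ℝ)) (fun ω e => ∑ i, (a i : ℝ) * m i ω e)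
      (fun e => Finset.measurable_sum _ fun i _ => (hm1 i e).const_mul _)
      (fun e => memLp_finsetSum _ fun i _ => (hm2 i e).const_mul _)
      (fun ω => by
        rw [Finset.sum_comm]
        refine Finset.sum_eq_zero fun i _ => ?_
        rw [← Finset.mul_sum, hm3 i ω, mul_zero])
      (fun ε hε => by
        obtain ⟨ψ, p1, p2, p3⟩ := weyl_comb P Tm revD hT
          (fun i ω e => (dirVec e i : ℝ) * (gap ω 0 e : ℝ)) m hsq hm2 hm4
          (fun i => (a i : ℝ)) ε hε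
        refine ⟨ψ, p1, p2, ?_⟩
        have e1 : ∀ (ω : Conf d) (e : Fin d × Bool),
            (∑ i, (a i : ℝ) * ((dirVec e i : ℝ) * (gap ω 0 e : ℝ))) =
              (∑ i, (a i : ℝ) * (dirVec e i : ℝ)) * (gap ω 0 e : ℝ) := by
          intro ω e
          rw [Finset.sum_mul]
          exact Finset.sum_congr rfl fun i _ => by ring
        simp only [e1] at p3
        exact p3)
    rw [integral_Vf_comb P m hm2] at h
    exact h
  have hK := (hHBC P Tm revD hT).1 (Vf (fun (ω : Conf d) e => ((gap ω 0 e : ℕ) : ℝ)))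
    (measurable_Vf _ hgm) (integrable_Vf P _ hgap) (Vf_nonneg _)
  filter_upwards [hdir, hK, g1, g2'] with ω w1 w2 hω h0
  obtain ⟨K, -, hK1⟩ := w2
  have h0' : ω 0 = true := h0
  have geo := hG2 d ω hω
  obtain ⟨C, -, hC⟩ := hDET d hd ω hω h0' K (by
    intro n
    have e1 := SR_bridge hLNK ω hω h0' (Vf (fun (ω : Conf d) e => ((gap ω 0 e : ℕ) : ℝ))) n
    have e2 : (fun v : Occ ω => Vf (fun (ω : Conf d) e => ((gap ω 0 e : ℕ) : ℝ))
        (shiftConf v.1 ω)) = fun v => g2 ω v.1 := by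
      funext v
      unfold Vf g2
      simp only [geo.2.1 v.1]
    rw [e2] at e1
    rw [← e1]
    exact hK1 n)
  exact hLEVY d (covM P m) (covM_posSemidef P m hm2) ω hω h0' C (fun n hn => (hC n hn).1) w1

end Final

end Pool.Agent.Helper51.PP
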