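import Pool.Agent.Helper51.PP.Defs

/-!
# Swarm PC (MP_b460e8_pr): statements of the parts
-/

set_option autoImplicit false

namespace Pool.Agent.Helper51.PP

open MeasureTheory ProbabilityTheory Filter Topology
open scoped ENNReal BigOperators

/-! ### CH: abstract reversible chains -/

/-- basic facts about `pk` -/
def S_CH1 : Prop :=
  ∀ {X E : Type} [Fintype E] [Nonempty E] (nx : X → E → X) (rev : E → E), RevChain nx rev →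
  ∀ (x0 : X) (n : ℕ), (∀ y, 0 ≤ pk nx x0 n y) ∧ (Function.support (pk nx x0 n)).Finite ∧
    ∑' y, pk nx x0 n y = 1 ∧ (∀ f : X → ℝ, PRn nx f n x0 = ∑' y, pk nx x0 n y * f y) ∧
    (∀ y, pk nx x0 n y ≠ 0 → Reach nx x0 y) ∧ (∀ y, pk nx x0 n y = pk nx y n x0)

/-- energy identity -/
def S_CH2 : Prop :=
  ∀ {X E : Type} [Fintype E] [Nonempty E] (nx : X → E → X) (rev : E → E), RevChain nx rev →
  ∀ u : X → ℝ, (Function.support u).Finite → (Function.support (PR nx u)).Finite ∧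
    ∑' y, (PR nx u y) ^ 2 ≤ ∑' y, (u y) ^ 2 -
      (2 * (Fintype.card E : ℝ) ^ 2)⁻¹ * ∑ e, ∑' y, (u (nx (nx y e) e) - u y) ^ 2

/-- Chapman-Kolmogorov and Cauchy-Schwarz -/
def S_CH3 : Prop :=
  ∀ {X E : Type} [Fintype E] [Nonempty E] (nx : X → E → X) (rev : E → E), RevChain nx rev →
  ∀ (x0 y : X) (m n : ℕ), pk nx x0 (m + n) y ≤
    √(∑' z, (pk nx x0 m z) ^ 2) * √(∑' z, (pk nx y n z) ^ 2)

/-- the recursion of Nash's inequality -/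
def S_CH4 : Prop :=
  ∀ d : ℕ, 2 ≤ d → ∀ c : ℝ, 0 < c → ∃ C : ℝ, 0 < C ∧ ∀ a : ℕ → ℝ, (∀ n, 0 ≤ a n) →
    (∀ n, c * (a n) ^ (1 + 2 / (d : ℝ)) ≤ a n - a (n + 1)) →
    ∀ n : ℕ, 1 ≤ n → a n ≤ C * (n : ℝ) ^ (-((d : ℝ) / 2))

/-- entropy dissipation -/
def S_CH5 : Prop :=
  ∀ {X E : Type} [Fintype E] [Nonempty E] (nx : X → E → X) (rev : E → E), RevChain nx rev →
  ∀ (x0 : X) (n : ℕ), (1 / 2) * ((Fintype.card E : ℝ)⁻¹ * ∑ e, ∑' y,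
    (pk nx x0 n (nx y e) - pk nx x0 (n + 1) y) ^ 2 /
      (pk nx x0 n (nx y e) + pk nx x0 (n + 1) y)) ≤ ent nx x0 (n + 1) - ent nx x0 n

/-- first moments against entropy -/
def S_CH6 : Prop :=
  ∀ {X E : Type} [Fintype E] [Nonempty E] (nx : X → E → X) (rev : E → E), RevChain nx rev →
  ∀ (u : X → ℝ) (x0 : X) (n : ℕ),
    PRn nx (fun y => |u y|) (n + 2) x0 ≤ PRn nx (fun y => |u y|) n x0 +
      √(2 * (PRn nx (Vf (grad nx u)) n x0 + PRn nx (Vf (grad nx u)) (n + 1) x0) *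
        (ent nx x0 (n + 1) - ent nx x0 n))

/-- entropy lower bound -/
def S_CH7 : Prop :=
  ∀ {X E : Type} [Fintype E] [Nonempty E] (nx : X → E → X) (rev : E → E), RevChain nx rev →
  ∀ (x0 : X) (n : ℕ) (B : ℝ), 0 < B → (∀ y, pk nx x0 n y ≤ B) → -Real.log B ≤ ent nx x0 n

/-- the partition function of the exponential weight on `ℤ^d` -/
def S_ZS : Prop :=
  ∀ (d : ℕ) (s : ℝ), 0 < s → Summable (fun v : Fin d → ℤ => Real.exp (-(s * N1 v))) ∧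
    ∑' v : Fin d → ℤ, Real.exp (-(s * N1 v)) ≤ (1 + 2 / s) ^ d

/-- entropy upper bound by the first moment -/
def S_CH8 : Prop :=
  ∀ {X E : Type} [Fintype E] [Nonempty E] (nx : X → E → X) (rev : E → E), RevChain nx rev →
  ∀ (d : ℕ) (pos : X → Fin d → ℤ), Function.Injective pos → ∀ (x0 : X) (n : ℕ),
    ent nx x0 n ≤ d * Real.log (1 + PRn nx (fun y => N1 (pos y - pos x0)) n x0) +
      (1 + d * Real.log 3)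

/-- reachable points: functions with prescribed gradient as limits -/
def S_GRL : Prop :=
  ∀ {X E : Type} (nx : X → E → X) (x0 : X) (ψ : ℕ → X → ℝ) (w : X → E → ℝ),
    (∀ x e, Reach nx x0 x → Tendsto (fun l => grad nx (ψ l) x e) atTop (𝓝 (w x e))) →
    ∃ u : X → ℝ, u x0 = 0 ∧ ∀ x e, Reach nx x0 x → grad nx u x e = w x e

/-- small time averages give pointwise convergence on reachable points -/
def S_PTW : Prop :=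
  ∀ {X E : Type} [Fintype E] [Nonempty E] (nx : X → E → X) (x0 : X) (η : ℕ → X → E → ℝ)
    (lam : ℕ → ℝ), Tendsto lam atTop (𝓝 0) →
    (∀ᶠ k in atTop, ∀ n : ℕ, SR nx (Vf (η k)) n x0 ≤ lam k * n) →
    ∀ x e, Reach nx x0 x → Tendsto (fun k => η k x e) atTop (𝓝 0)

/-- elementary properties of `PRn` on a closed set -/
def S_CONG : Prop :=
  ∀ {X E : Type} [Fintype E] [Nonempty E] (nx : X → E → X) (S : Set X),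
    (∀ x ∈ S, ∀ e, nx x e ∈ S) →
    (∀ (f g : X → ℝ), (∀ x ∈ S, f x ≤ g x) → ∀ n, ∀ x ∈ S, PRn nx f n x ≤ PRn nx g n x) ∧
    (∀ (f g : X → ℝ), (∀ x ∈ S, f x = g x) → ∀ n, ∀ x ∈ S, PRn nx f n x = PRn nx g n x) ∧
    (∀ (f g : X → ℝ) (a b : ℝ) (n : ℕ) (x : X),
      PRn nx (fun y => a * f y + b * g y) n x = a * PRn nx f n x + b * PRn nx g n x) ∧
    (∀ (a : ℝ) (n : ℕ) (x : X), PRn nx (fun _ => a) n x = a) ∧
    (∀ (c c' : X → E → ℝ), (∀ x ∈ S, ∀ e, c x e = c' x e) → ∀ (θ : ℝ) (n : ℕ), ∀ x ∈ S,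
      CF nx c θ n x = CF nx c' θ n x)

/-- characteristic function estimate of Lindeberg type -/
def S_CFE : Prop :=
  ∀ {X E : Type} [Fintype E] [Nonempty E] (nx : X → E → X) (S : Set X),
    (∀ x ∈ S, ∀ e, nx x e ∈ S) →
  ∀ (c : X → E → ℝ), (∀ x ∈ S, ∑ e, c x e = 0) →
  ∀ (G : ℝ), 0 ≤ G → ∀ (σ2 : ℝ), 0 ≤ σ2 →
  ∀ (h : X → ℝ) (H : ℝ), (∀ x ∈ S, |h x| ≤ H) →
  ∀ (Δ : X → ℝ), (∀ x ∈ S, |Vf c x - σ2 - (h x - PR nx h x)| ≤ Δ x) →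
  ∀ (n : ℕ) (θ : ℝ), 0 ≤ θ → ∀ x ∈ S,
    ‖CF nx c θ n x - ((Real.exp (-(θ ^ 2 * σ2 / 2)) : ℝ) : ℂ) ^ n‖ ≤
      θ ^ 2 / 2 * SR nx Δ n x + 3 * θ ^ 2 / 2 * H + θ ^ 3 / 4 * H * (n + SR nx (Vf c) n x)
        + θ ^ 3 * G / 6 * SR nx (Vf c) n x + 2 * θ ^ 2 * SR nx (Tf c G) n x
        + n * θ ^ 4 * σ2 ^ 2 / 8

/-- characteristic functions of `φ(X_n)`; comparison of two functions -/
def S_EVF : Prop :=
  ∀ {X E : Type} [Fintype E] [Nonempty E] (nx : X → E → X),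
    (∀ (φ : X → ℝ) (θ : ℝ) (n : ℕ) (x : X),
      EV nx (fun y => Complex.exp (Complex.I * ((θ * φ y : ℝ) : ℂ))) n x =
        Complex.exp (Complex.I * ((θ * φ x : ℝ) : ℂ)) * CF nx (grad nx φ) θ n x) ∧
    (∀ (F F' : X → ℂ) (n : ℕ) (x : X),
      ‖EV nx F n x - EV nx F' n x‖ ≤ PRn nx (fun y => ‖F y - F' y‖) n x)

/-! ### SQ: sequences -/

/-- Nash's argument for sequences -/
def S_NL : Prop :=
  ∀ d : ℕ, 1 ≤ d → ∀ K C1 C2 C3 : ℝ, 0 ≤ K → 0 ≤ C1 → 0 ≤ C2 → 0 ≤ C3 → ∃ C : ℝ, 0 ≤ C ∧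
  ∀ (H M F : ℕ → ℝ), Monotone H → 0 ≤ H 0 → (∀ n, 0 ≤ M n) → (∀ n, 0 ≤ F n) →
    (∀ n, ∑ k ∈ Finset.range n, F k ≤ K * n) →
    (∀ n, M (n + 2) ≤ M n + √(2 * (F n + F (n + 1)) * (H (n + 1) - H n))) →
    M 0 ≤ C3 → M 1 ≤ C3 →
    (∀ n : ℕ, 1 ≤ n → (d : ℝ) / 2 * Real.log n - C1 ≤ H n) →
    (∀ n, H n ≤ d * Real.log (1 + M n) + C2) →
    ∀ n : ℕ, 1 ≤ n → M n ≤ C * √n ∧
      ∑ k ∈ Finset.range n, √((k : ℝ) + 1) * (H (k + 1) - H k) ≤ C * √n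

/-- the corrector estimate for sequences -/
def S_CL : Prop :=
  ∀ C : ℝ, 0 ≤ C → ∃ C' : ℝ, 0 ≤ C' ∧
  ∀ (H U F : ℕ → ℝ) (lam : ℝ), 0 ≤ lam → Monotone H → (∀ n, 0 ≤ U n) → (∀ n, 0 ≤ F n) →
    (∀ n, ∑ k ∈ Finset.range n, F k ≤ lam * n) →
    (∀ n : ℕ, 1 ≤ n → ∑ k ∈ Finset.range n, √((k : ℝ) + 1) * (H (k + 1) - H k) ≤ C * √n) →
    (∀ n, U (n + 2) ≤ U n + √(2 * (F n + F (n + 1)) * (H (n + 1) - H n))) →
    U 0 = 0 → U 1 ≤ √lam → ∀ n : ℕ, 1 ≤ n → U n ≤ C' * √lam * √n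

/-! ### GEO: the chain of a configuration -/

def S_GEO1 : Prop := ∀ (d : ℕ) (ω : Conf d) (hω : Good ω), RevChain (nxO ω hω) revD

def S_GEO2 : Prop := ∀ (d : ℕ) (ω : Conf d), Good ω →
  (∀ v, Good (shiftConf v ω)) ∧
  (∀ v e, gap (shiftConf v ω) 0 e = gap ω v e) ∧
  (∀ v e, Tm (shiftConf v ω) e = shiftConf (nextPt ω v e) ω) ∧
  (∀ e, Tm ω e = shiftConf (nextPt ω 0 e) ω) ∧
  (ω 0 = true → ∀ e, Tm (Tm ω e) (revD e) = ω ∧ gap (Tm ω e) 0 (revD e) = gap ω 0 e)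

/-- the walk on the configuration and the environment seen from the walk -/
def S_LNK : Prop := ∀ (d : ℕ) (ω : Conf d) (hω : Good ω) (n : ℕ) (v : Occ ω),
  (∀ g : Conf d → ℝ, PRn Tm g n (shiftConf v.1 ω) =
    PRn (nxO ω hω) (fun w => g (shiftConf w.1 ω)) n v) ∧
  (∀ F : (Fin d → ℤ) → ℂ, EV (nextPt ω) F n v.1 = EV (nxO ω hω) (fun w => F w.1) n v)

/-- grid line Sobolev inequality for steps of length two -/
def S_SB : Prop := ∀ d : ℕ, 2 ≤ d → ∀ (ω : Conf d) (hω : Good ω) (u : Occ ω → ℝ),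
  (Function.support u).Finite →
  ∑' y, |u y| ^ ((d : ℝ) / ((d : ℝ) - 1)) ≤
    (∑ e, ∑' y, |u (nxO ω hω (nxO ω hω y e) e) - u y|) ^ ((d : ℝ) / ((d : ℝ) - 1))

/-- Nash inequality for steps of length two -/
def S_NASH : Prop := ∀ d : ℕ, 2 ≤ d → ∀ (ω : Conf d) (hω : Good ω) (u : Occ ω → ℝ),
  (Function.support u).Finite →
  (∑' y, (u y) ^ 2) ^ (1 + 2 / (d : ℝ)) ≤ 8 * d * (∑' y, |u y|) ^ (4 / (d : ℝ)) *
    ∑ e, ∑' y, (u (nxO ω hω (nxO ω hω y e) e) - u y) ^ 2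

/-- heat kernel upper bound -/
def S_HK : Prop := ∀ d : ℕ, 2 ≤ d → ∃ C : ℝ, 0 < C ∧ ∀ (ω : Conf d) (hω : Good ω)
  (x0 : Occ ω) (n : ℕ), 1 ≤ n → ∀ y, pk (nxO ω hω) x0 n y ≤ C * (n : ℝ) ^ (-((d : ℝ) / 2))

/-- the mean square gap at a site -/
noncomputable def g2 {d : ℕ} (ω : Conf d) (v : Fin d → ℤ) : ℝ :=
  (Fintype.card (Fin d × Bool) : ℝ)⁻¹ * ∑ e, ((gap ω v e : ℕ) : ℝ) ^ 2

/-- diffusive upper bound and the entropy sum -/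
def S_DET : Prop := ∀ d : ℕ, 2 ≤ d → ∀ (ω : Conf d) (hω : Good ω) (h0 : ω 0 = true) (K : ℝ),
  (∀ n : ℕ, SR (nxO ω hω) (fun v => g2 ω v.1) n ⟨0, h0⟩ ≤ K * n) →
  ∃ C : ℝ, 0 ≤ C ∧ ∀ n : ℕ, 1 ≤ n →
    PRn (nxO ω hω) (fun v => N1 v.1) n ⟨0, h0⟩ ≤ C * √n ∧
    ∑ k ∈ Finset.range n, √((k : ℝ) + 1) * (ent (nxO ω hω) ⟨0, h0⟩ (k + 1) -
      ent (nxO ω hω) ⟨0, h0⟩ k) ≤ C * √n

/-- the corrector is small -/
def S_COR : Prop := ∀ {X E : Type} [Fintype E] [Nonempty E] (nx : X → E → X) (rev : E → E),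
  RevChain nx rev → ∀ (x0 : X) (C : ℝ), 0 ≤ C →
  (∀ n : ℕ, 1 ≤ n → ∑ k ∈ Finset.range n, √((k : ℝ) + 1) * (ent nx x0 (k + 1) - ent nx x0 k)
    ≤ C * √n) →
  ∀ (w : X → E → ℝ) (ψ : ℕ → X → ℝ) (B : ℕ → ℝ), (∀ k x, |ψ k x| ≤ B k) →
  (∀ᶠ k in atTop, ∀ n : ℕ, SR nx (Vf (fun x e => w x e - grad nx (ψ k) x e)) n x0
    ≤ (1 / 2) ^ k * n) →
  ∃ χ : X → ℝ, χ x0 = 0 ∧ (∀ x e, Reach nx x0 x → grad nx χ x e = w x e) ∧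
    Tendsto (fun n : ℕ => PRn nx (fun y => |χ y|) n x0 / √n) atTop (𝓝 0)

/-- the martingale part -/
def S_MART : Prop := ∀ {X E : Type} [Fintype E] [Nonempty E] (nx : X → E → X) (x0 : X)
  (m : X → E → ℝ), (∀ x, Reach nx x0 x → ∑ e, m x e = 0) → ∀ (σ2 K : ℝ), 0 ≤ σ2 →
  (∀ n : ℕ, SR nx (Vf m) n x0 ≤ K * n) →
  ∀ (h : ℕ → X → ℝ) (H G : ℕ → ℝ), (∀ k x, |h k x| ≤ H k) → (∀ k, 0 ≤ G k) →
  (∀ᶠ k in atTop, ∀ n : ℕ, SR nx (fun x => |Vf m x - σ2 - (h k x - PR nx (h k) x)|) n x0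
    ≤ (1 / 2) ^ k * n) →
  (∀ᶠ k in atTop, ∀ n : ℕ, SR nx (Tf m (G k)) n x0 ≤ (1 / 2) ^ k * n) →
  Tendsto (fun n : ℕ => CF nx m ((√(n : ℝ))⁻¹) n x0) atTop
    (𝓝 ((Real.exp (-(σ2 / 2)) : ℝ) : ℂ))

/-- convergence of the characteristic functions for one configuration -/
def S_DLT : Prop := ∀ d : ℕ, 2 ≤ d → ∀ (ω : Conf d) (hω : Good ω) (h0 : ω 0 = true) (K : ℝ),
  (∀ n : ℕ, SR (nxO ω hω) (fun v => g2 ω v.1) n ⟨0, h0⟩ ≤ K * n) →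
  ∀ (a : Fin d → ℝ) (m : Occ ω → Fin d × Bool → ℝ), (∀ x, ∑ e, m x e = 0) →
  ∀ (σ2 : ℝ), 0 ≤ σ2 → (∀ n : ℕ, SR (nxO ω hω) (Vf m) n ⟨0, h0⟩ ≤ K * n) →
  ∀ (h ψ : ℕ → Occ ω → ℝ) (H G B : ℕ → ℝ), (∀ k x, |h k x| ≤ H k) → (∀ k, 0 ≤ G k) →
  (∀ k x, |ψ k x| ≤ B k) →
  (∀ᶠ k in atTop, ∀ n : ℕ, SR (nxO ω hω)
    (fun x => |Vf m x - σ2 - (h k x - PR (nxO ω hω) (h k) x)|) n ⟨0, h0⟩ ≤ (1 / 2) ^ k * n) →
  (∀ᶠ k in atTop, ∀ n : ℕ, SR (nxO ω hω) (Tf m (G k)) n ⟨0, h0⟩ ≤ (1 / 2) ^ k * n) →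
  (∀ᶠ k in atTop, ∀ n : ℕ, SR (nxO ω hω) (Vf (fun x e =>
    ((∑ i, a i * (dirVec e i : ℝ)) * (gap ω x.1 e : ℝ) - m x e) -
      grad (nxO ω hω) (ψ k) x e)) n ⟨0, h0⟩ ≤ (1 / 2) ^ k * n) →
  Tendsto (fun n : ℕ => EV (nextPt ω) (fun v => Complex.exp (Complex.I *
    (((√(n : ℝ))⁻¹ * ∑ i, a i * (v i : ℝ) : ℝ) : ℂ))) n 0) atTop
    (𝓝 ((Real.exp (-(σ2 / 2)) : ℝ) : ℂ))

/-! ### ERG: measure preserving reversible systems -/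

/-- Hopf's maximal inequality -/
def S_HOPF : Prop := ∀ {Ω E : Type} [MeasurableSpace Ω] [Fintype E] [Nonempty E]
  (μ : Measure Ω) [IsProbabilityMeasure μ] (T : Ω → E → Ω) (rev : E → E), MPS μ T rev →
  ∀ g : Ω → ℝ, Measurable g → Integrable g μ → (∀ ω, 0 ≤ g ω) → ∀ lam : ℝ, 0 < lam →
    μ {ω | ∃ n : ℕ, lam * n < SR T g n ω} ≤ ENNReal.ofReal ((∫ ω, g ω ∂μ) / lam)

/-- Borel-Cantelli version -/
def S_HBC : Prop := ∀ {Ω E : Type} [MeasurableSpace Ω] [Fintype E] [Nonempty E]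
  (μ : Measure Ω) [IsProbabilityMeasure μ] (T : Ω → E → Ω) (rev : E → E), MPS μ T rev →
  (∀ g : Ω → ℝ, Measurable g → Integrable g μ → (∀ ω, 0 ≤ g ω) →
    ∀ᵐ ω ∂μ, ∃ K : ℝ, 0 ≤ K ∧ ∀ n : ℕ, SR T g n ω ≤ K * n) ∧
  (∀ g : ℕ → Ω → ℝ, (∀ k, Measurable (g k)) → (∀ k, Integrable (g k) μ) →
    (∀ k ω, 0 ≤ g k ω) → (∀ k, ∫ ω, g k ω ∂μ ≤ (1 / 4) ^ k) →
    ∀ᵐ ω ∂μ, ∀ᶠ k in atTop, ∀ n : ℕ, SR T (g k) n ω ≤ (1 / 2) ^ k * n)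

/-- harmonic functions are constant -/
def S_LIO : Prop := ∀ {Ω E : Type} [MeasurableSpace Ω] [Fintype E] [Nonempty E]
  (μ : Measure Ω) [IsProbabilityMeasure μ] (T : Ω → E → Ω) (rev : E → E), MPS μ T rev →
  (∃ e, Ergodic (fun ω => T ω e) μ) → ∀ h : Ω → ℝ, MemLp h 2 μ → PR T h =ᵐ[μ] h →
  ∃ c : ℝ, h =ᵐ[μ] fun _ => c

/-- functions of mean zero are nearly coboundaries -/
def S_DEN : Prop := ∀ {Ω E : Type} [MeasurableSpace Ω] [Fintype E] [Nonempty E]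
  (μ : Measure Ω) [IsProbabilityMeasure μ] (T : Ω → E → Ω) (rev : E → E), MPS μ T rev →
  (∃ e, Ergodic (fun ω => T ω e) μ) → ∀ V : Ω → ℝ, Measurable V → Integrable V μ →
  ∀ ε : ℝ, 0 < ε → ∃ h : Ω → ℝ, Measurable h ∧ (∃ H : ℝ, ∀ ω, |h ω| ≤ H) ∧
    ∫ ω, |V ω - (∫ ω', V ω' ∂μ) - (h ω - PR T h ω)| ∂μ ≤ ε

/-- Weyl decomposition -/
def S_WEYL : Prop := ∀ {Ω E : Type} [MeasurableSpace Ω] [Fintype E] [Nonempty E]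
  (μ : Measure Ω) [IsProbabilityMeasure μ] (T : Ω → E → Ω) (rev : E → E), MPS μ T rev →
  ∀ c : Ω → E → ℝ, (∀ e, Measurable (fun ω => c ω e)) → (∀ e, MemLp (fun ω => c ω e) 2 μ) →
  (∀ e, ∀ᵐ ω ∂μ, c (T ω e) (rev e) = -c ω e) →
  ∃ m : Ω → E → ℝ, (∀ e, Measurable (fun ω => m ω e)) ∧ (∀ e, MemLp (fun ω => m ω e) 2 μ) ∧
    (∀ ω, ∑ e, m ω e = 0) ∧
    ∀ ε : ℝ, 0 < ε → ∃ ψ : Ω → ℝ, Measurable ψ ∧ (∃ B : ℝ, ∀ ω, |ψ ω| ≤ B) ∧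
      ∫ ω, Vf (fun ω e => c ω e - m ω e - grad T ψ ω e) ω ∂μ ≤ ε

/-! ### PPR: the point process -/

def S_MG : Prop := ∀ (d : ℕ) (e : Fin d × Bool), Measurable (fun ω : Conf d => gap ω 0 e) ∧
  Measurable (fun ω : Conf d => Tm ω e)

def S_POS : Prop := ∀ (d : ℕ) (Q : Measure (Conf d)), IsPointProcess d Q → Q (Om0 d) ≠ 0

def S_GOOD : Prop := ∀ (d : ℕ) (Q : Measure (Conf d)), IsPointProcess d Q → ∀ᵐ ω ∂Q, Good ω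

/-- the induced transformations preserve the conditioned measure -/
def S_MP : Prop := ∀ (d : ℕ) (Q : Measure (Conf d)), IsPointProcess d Q →
  ∀ e : Fin d × Bool, MeasurePreserving (fun ω : Conf d => Tm ω e) (cond Q (Om0 d))
    (cond Q (Om0 d))

/-- the induced transformations are ergodic -/
def S_ERG : Prop := ∀ (d : ℕ) (Q : Measure (Conf d)), IsPointProcess d Q →
  ∀ i : Fin d, Ergodic (fun ω : Conf d => Tm ω (i, true)) (cond Q (Om0 d))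

/-! ### LIM: passage to weak convergence -/

/-- the characteristic function of the scaled law -/
def S_CHAR : Prop := ∀ (d : ℕ) [NeZero d] (ω : Conf d) (n : ℕ)
  (t : EuclideanSpace ℝ (Fin d)),
  charFun ((scaledLaw ω n : ProbabilityMeasure (EuclideanSpace ℝ (Fin d))) :
      Measure (EuclideanSpace ℝ (Fin d))) t =
    EV (nextPt ω) (fun v => Complex.exp (Complex.I *
      (((√(n : ℝ))⁻¹ * ∑ i, t i * (v i : ℝ) : ℝ) : ℂ))) n 0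

/-- Lévy's continuity theorem, with a first moment bound: a countable dense set of directions is
enough -/
def S_LEVY : Prop := ∀ (d : ℕ) [NeZero d] (D : Matrix (Fin d) (Fin d) ℝ), D.PosSemidef →
  ∀ (ω : Conf d) (hω : Good ω) (h0 : ω 0 = true) (C : ℝ),
  (∀ n : ℕ, 1 ≤ n → PRn (nxO ω hω) (fun v => N1 v.1) n ⟨0, h0⟩ ≤ C * √n) →
  (∀ a : Fin d → ℚ, Tendsto (fun n : ℕ => EV (nextPt ω) (fun v => Complex.exp (Complex.I *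
    (((√(n : ℝ))⁻¹ * ∑ i, (a i : ℝ) * (v i : ℝ) : ℝ) : ℂ))) n 0) atTop
    (𝓝 ((Real.exp (-((∑ i, ∑ j, (a i : ℝ) * D i j * (a j : ℝ)) / 2)) : ℝ) : ℂ))) →
  Tendsto (fun n : ℕ => scaledLaw ω n) atTop
    (𝓝 (⟨multivariateGaussian 0 D, inferInstance⟩ :
      ProbabilityMeasure (EuclideanSpace ℝ (Fin d))))

end Pool.Agent.Helper51.PP
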